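import Mathlib
import Pool.Agent.Q240.KS.Stm1
import Pool.Agent.Q240.KS.Stm2

/-!
# Project KT (helper240), number theory part of the second attack on Kahane-Saias

Every statement is a `Prop` with a complete proof in its docstring. `C` denotes constants that may change from line to
line. Three inputs: a mean value theorem for products of a Dirichlet polynomial and a polynomial over well spaced points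
(Heath-Brown), large values of smooth factors by reflection, and the neighbourhood of the line one up to `e^{0.82 Y}`.
-/

set_option autoImplicit false

namespace Pool.Agent.Q240.KT

open Finset Pool.Agent.H376R2.MR Pool.Agent.Q240.KS

/-! ### Part RT: the mean value theorem -/

/-- the polynomial over a set of points, `R(k) = ∑ c_u e^{iku}` -/
noncomputable def RU (U : Finset ℝ) (c : ℝ → ℂ) (k : ℤ) : ℂ :=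
  ∑ u ∈ U, c u * Complex.exp (((k : ℝ) * u : ℝ) * Complex.I)

/-- the number of `(u, u', m, m')` with `|u - u' - log (m/m')| ≤ 1/K` -/
noncomputable def NQ (U : Finset ℝ) (s : Finset ℕ) (K : ℕ) : ℕ :=
  (((U ×ˢ U) ×ˢ (s ×ˢ s)).filter (fun p : (ℝ × ℝ) × ℕ × ℕ =>
    |p.1.1 - p.1.2 - (Real.log p.2.1 - Real.log p.2.2)| ≤ 1 / (K : ℝ))).card

/-- the number of `(u, u', h, h')` with `h, h' ≤ H` coprime and `|u - u' - log (h/h')| ≤ τ/K` -/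
noncomputable def PQ (U : Finset ℝ) (K : ℕ) (τ H : ℝ) : ℕ :=
  (((U ×ˢ U) ×ˢ (Icc 1 ⌊H⌋₊ ×ˢ Icc 1 ⌊H⌋₊)).filter (fun p : (ℝ × ℝ) × ℕ × ℕ =>
    Nat.Coprime p.2.1 p.2.2 ∧ |p.1.1 - p.1.2 - (Real.log p.2.1 - Real.log p.2.2)| ≤ τ / (K : ℝ))).card

/-- **RT1** (reduction to counting). Proof. As `1 ≤ 2 (1 - |k|/(2K))` for `|k| < K`, the left side is at most
`2 ∑_{|k| < 2K} (1 - |k|/(2K)) |F(k)|²`, `F(k) = RU U c k * DP s b k = ∑_{(u,m)} c_u b_m e^{ik (u - log m)}`. Expanding (with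
`fej_exp` as in the proof of `Pool.Agent.Q257.KS.lsd`) it equals
`2 ∑ ∑ c_u b_m conj(c_{u'} b_{m'}) Fj (2K) (x - x')`, `x = u - log m`, `x' = u' - log m'`, and is at most
`2 (A e^{1/2}/M)² ∑ ∑ Fj (2K) (x - x')`, because `Fj ≥ 0` and `|b_m| ≤ A/m ≤ A e^{1/2}/M`. For a point `(u, m)` let
`j(u, m) = ⌊K (u - log m)⌋`, an integer, and let `n_j` be the number of `(u, m) ∈ U × s` in the cell `j`. Let `r = |j - j'|`. If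
`r ≥ 2` then `|x - x'| ≥ (r - 1)/K` and `|x - x'| ≤ 2 < π`, so `Fj (2K) (x - x') ≤ π² / (2K (x - x')²) ≤ 5 K/(r - 1)²
≤ 45 K / (1 + r)²` (`Fj_le_sq`, `(1 + r) ≤ 3 (r - 1)`); if `r ≤ 1` then `Fj ≤ 2K ≤ 45 K/(1 + r)²`. Hence
`∑ ∑ Fj ≤ 45 K ∑_{j,j'} n_j n_{j'} / (1 + |j - j'|)² ≤ 45 K ∑_j n_j² · ∑_{r ∈ ℤ} 1/(1 + |r|)² ≤ 180 K ∑_j n_j²`
(`2 n_j n_{j'} ≤ n_j² + n_{j'}²`), and `∑_j n_j² ≤ NQ U s K` since two points in one cell satisfy `|x - x'| ≤ 1/K`. -/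
def S_RT1 : Prop := ∃ C : ℝ, 1 ≤ C ∧ ∀ (K : ℕ) (v : ℝ) (U : Finset ℝ) (c : ℝ → ℂ) (s : Finset ℕ) (b : ℕ → ℂ)
  (A M : ℝ), 1 ≤ K → (∀ u ∈ U, v ≤ u ∧ u ≤ v + 1) → (∀ u ∈ U, ‖c u‖ ≤ 1) → 1 ≤ M → 0 ≤ A →
  (∀ m ∈ s, 1 ≤ m ∧ |Real.log m - Real.log M| ≤ 1 / 2 ∧ ‖b m‖ ≤ A / m) →
  ∑ k ∈ FK K, ‖RU U c k * DP s b k‖ ^ 2 ≤ C * A ^ 2 * K / M ^ 2 * NQ U s K

/-- **RT2** (greatest common divisors). Proof. Send `(u, u', m, m')` to `(g, u, u', m/g, m'/g)`, `g = gcd (m, m')`,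
`1 ≤ g ≤ m ≤ M`. The map is injective, `m/g` and `m'/g` are coprime, `≥ 1` and `≤ M/g` (so `≤ ⌊M/g⌋₊`), and
`log m - log m' = log (m/g) - log (m'/g)`. -/
def S_RT2 : Prop := ∀ (U : Finset ℝ) (s : Finset ℕ) (K : ℕ) (M : ℝ), (∀ m ∈ s, 1 ≤ m ∧ (m : ℝ) ≤ M) →
  NQ U s K ≤ ∑ g ∈ Icc 1 ⌊M⌋₊, PQ U K 1 (M / g)

/-- **RT3** (spacing of fractions). Proof. Fix `(u, u')`. For two different coprime pairs `(a, b)`, `(a', b')` with entries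
`1 ≤ … ≤ H` one has `a b' ≠ a' b`, and if `a b' > a' b` then `log (a/b) - log (a'/b') = log (a b'/(a' b)) ≥
(a b' - a' b)/(a b') ≥ 1/H²`. So the numbers `log a - log b` are `1/H²`-separated, and an interval of length `2τ/K` contains
at most `1 + 2 τ H²/K` of them. -/
def S_RT3 : Prop := ∀ (U : Finset ℝ) (K : ℕ) (τ H : ℝ), 1 ≤ K → 0 ≤ τ → 1 ≤ H →
  (PQ U K τ H : ℝ) ≤ (U.card : ℝ) ^ 2 * (1 + 2 * τ * H ^ 2 / K)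

/-- **RT4** (the second moment). Proof. `PQ U K τ H = ∑_{u ∈ U} deg u`, where `deg u` is the number of `(u', h₁, h₂)`, `u' ∈ U`,
`h₁, h₂ ≤ H` coprime, `|u - u' - (log h₁ - log h₂)| ≤ τ/K`. By Cauchy-Schwarz `PQ² ≤ |U| ∑_u (deg u)²`, and `∑_u (deg u)²` counts
the `(u, (u', h₁, h₂), (u'', h₃, h₄))` with both conditions. Subtracting them,
`|u'' - u' - (log (h₁ h₄) - log (h₂ h₃))| ≤ 2τ/K`. Given `u', u'', h₁, …, h₄` there are at most `1 + 2τ` possible `u` (they lie in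
an interval of length `2τ/K` and are `1/K`-separated). It remains to count the `(u'', u', h₁, …, h₄)`. Let
`g = gcd (h₁ h₄, h₂ h₃)`, `a = h₁ h₄/g`, `b = h₂ h₃/g`, coprime, `q = max (a, b)`; `g q ≤ H²`. Given `(a, b)` there are at most `H²/q`
values of `g`, and given `a, b, g` at most `D` pairs `(h₁, h₄)` with `h₁ h₄ = g a ≤ H²` (`h₁` divides `g a`) and at most `D` pairs
`(h₂, h₃)`. Let `i ≥ 0` be the integer with `H²/2^{i+1} < q ≤ H²/2^i`; then `2^i ≤ H²/q ≤ H²`, so `i ≤ Nat.log 2 ⌊H²⌋₊`, there are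
at most `H²/q ≤ 2^{i+1}` values of `g`, and `(u'', u', a, b)` is counted in `PQ U K (2τ) (H²/2^i)`. -/
def S_RT4 : Prop := ∀ (U : Finset ℝ) (K : ℕ) (τ H D : ℝ), 1 ≤ K → 1 ≤ τ → 1 ≤ H →
  (∀ u ∈ U, ∀ u' ∈ U, u ≠ u' → 1 / (K : ℝ) ≤ |u - u'|) →
  (∀ n : ℕ, 1 ≤ n → (n : ℝ) ≤ H ^ 2 → (n.divisors.card : ℝ) ≤ D) →
  (PQ U K τ H : ℝ) ^ 2 ≤ U.card * (1 + 2 * τ) * D ^ 2 *
    ∑ i ∈ range (Nat.log 2 ⌊H ^ 2⌋₊ + 1), 2 ^ (i + 1) * (PQ U K (2 * τ) (H ^ 2 / 2 ^ i) : ℝ)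

/-- **RT5** (closing the recursion; from RT3, RT4 and the divisor bound `Pool.Agent.Helper112` `divisor_bound`). Proof. Let
`n = |U|`; we may assume `n ≥ 1`, and `n ≤ K + 1 ≤ 2K` by the separation. For `H > K^{1/2}` RT3 gives
`PQ ≤ n² (1 + 2H²/K) ≤ 3 n² H²/K`. Now let `1 ≤ H ≤ K^{1/2}`. Choose `J` with `2^{-J} ≤ ε/4`, `ε₁ = ε/100`,
`D = C_d K^{ε₁}` a bound for the number of divisors of all integers `≤ K`, `ℓ = C K^{ε₁} ≥ 1 + log₂ K`,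
`X = n^{7/4} K^{-1/4}`, `A₁ = 120 · 4^J D² ℓ` (we may assume `C_d ≥ 1`), `W = 4 A₁² (n + X)`, `λ_J = 3 · 2^J n`,
`λ_j = λ_{j+1}^{1/2}`, i.e. `λ_j = λ_J^{2^{j - J}} ≥ 1`. CLAIM: for `0 ≤ j ≤ J` and `1 ≤ H ≤ K^{1/2}`:
`PQ U K (2^j) H ≤ W λ_j H`. For `j = J`: RT3 gives `PQ ≤ n² (1 + 2 · 2^J) ≤ n λ_J ≤ W λ_J H`. Step from `j + 1` to `j`, `τ = 2^j`:
(a) if `H ≥ H₀ := (n K)^{1/4}`: RT3 gives `PQ ≤ 3 · 2^J n² ≤ 3 · 2^J n² H/H₀ = 3 · 2^J X H ≤ W H`.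
(b) if `H < H₀`: use RT4 (`H² ≤ K`). For the `i` with `H'' = H²/2^i ≥ K^{1/2}`, RT3 gives
`PQ U K (2τ) H'' ≤ n² (1 + 4 τ H''²/K) ≤ 5 τ n² H''²/K`, and `∑_i 2^{i+1} 5 τ n² H⁴/(4^i K) ≤ 20 τ n² H⁴/K`. For the others
`1 ≤ H'' < K^{1/2}` (as `2^i ≤ H²`) and the induction hypothesis gives `2^{i+1} PQ U K (2τ) H'' ≤ 2 W λ_{j+1} H²`; there are at
most `1 + log₂ H² ≤ ℓ` of them. Hence
`PQ² ≤ n · 3 · 2^J D² (20 · 2^J n² H⁴/K + 2 ℓ W λ_{j+1} H²) ≤ A₁ H² (n³ H²/K + n W λ_{j+1})`, and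
`n³ H²/K ≤ n³ (nK)^{1/2}/K = X²`. Since `X ≤ W/(4 A₁²)` and `n ≤ W/(4 A₁²)`, the bracket is `≤ 2 W² λ_{j+1}/(4 A₁²)`, so
`PQ² ≤ W² λ_{j+1} H²`, the claim. For `j = 0`: `λ_0 = λ_J^{2^{-J}} ≤ (6 · 2^J K)^{2^{-J}} ≤ 6 · 2^J K^{ε/4}` and
`A₁² ≤ C K^{6 ε₁}`. -/
def S_RT5 : Prop := ∀ ε : ℝ, 0 < ε → ∃ C : ℝ, 1 ≤ C ∧ ∀ (U : Finset ℝ) (v : ℝ) (K : ℕ), 1 ≤ K →
  (∀ u ∈ U, v ≤ u ∧ u ≤ v + 1) → (∀ u ∈ U, ∀ u' ∈ U, u ≠ u' → 1 / (K : ℝ) ≤ |u - u'|) → ∀ H : ℝ, 1 ≤ H →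
  (PQ U K 1 H : ℝ) ≤ C * (K : ℝ) ^ ε * ((U.card : ℝ) ^ 2 * H ^ 2 / K +
    (U.card + (U.card : ℝ) ^ (7 / 4 : ℝ) * (K : ℝ) ^ (-(1 / 4) : ℝ)) * H)

/-- **RT** (Heath-Brown's mean value; from RT1, RT2, RT5). Proof. We may assume `s` nonempty. RT1, then RT2 with
`M₁ = e^{1/2} M` in place of `M`, then RT5 with `H = M₁/g ≥ 1` for `1 ≤ g ≤ ⌊M₁⌋`:
`NQ ≤ C K^ε ∑_g (n² M₁²/(K g²) + (n + n^{7/4} K^{-1/4}) M₁/g) ≤ C K^ε (n² M²/K + (1 + log M)(n + n^{7/4} K^{-1/4}) M)`.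
Multiply by `C A² K/M²`. -/
def S_RT : Prop := ∀ ε : ℝ, 0 < ε → ∃ C : ℝ, 1 ≤ C ∧ ∀ (K : ℕ) (v : ℝ) (U : Finset ℝ) (c : ℝ → ℂ) (s : Finset ℕ)
  (b : ℕ → ℂ) (A M : ℝ), 1 ≤ K → (∀ u ∈ U, v ≤ u ∧ u ≤ v + 1) →
  (∀ u ∈ U, ∀ u' ∈ U, u ≠ u' → 1 / (K : ℝ) ≤ |u - u'|) → (∀ u ∈ U, ‖c u‖ ≤ 1) → 1 ≤ M → 0 ≤ A →
  (∀ m ∈ s, 1 ≤ m ∧ |Real.log m - Real.log M| ≤ 1 / 2 ∧ ‖b m‖ ≤ A / m) →
  ∑ k ∈ FK K, ‖RU U c k * DP s b k‖ ^ 2 ≤ C * A ^ 2 * (1 + Real.log M) * (K : ℝ) ^ ε * ((U.card : ℝ) ^ 2 +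
    (K * U.card + (U.card : ℝ) ^ (7 / 4 : ℝ) * (K : ℝ) ^ (3 / 4 : ℝ)) / M)

/-- **RTP** (RT for a product of some of the ten factors; from RT). Proof. `∏_{i ∈ S} PF z (ty i) (d i) k = DP s b k` with
`b_m = ∑ ∏_{i ∈ S} cf z (ty i) (d i) (m_i)` over the factorisations `m = ∏_{i ∈ S} m_i`, supported in
`|log m - ∑_{i ∈ S} d_i/20| ≤ |S|/20 ≤ 1/2`, and `|b_m| ≤ (1 + d_max)^{10} τ(m)^{10}/m ≤ C e^{ε Y/8}/m` (`d_i ≤ 20 (Y+1)`,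
`m ≤ e^{Y + 3/2}`, divisor bound); induction over `S` with `Pool.Agent.Q211.KS.DP_mul` as in the proof of
`Pool.Agent.Q211.KS.pow_DP` (which does the power of one factor). Apply RT with `M = exp (∑_{i ∈ S} d_i/20)`,
`1 ≤ M ≤ e^{Y+1}`, `A = C e^{εY/8}`, exponent `ε/8` (`K^{ε/8} ≤ e^{εY/4}`, `1 + log M ≤ Y + 2`). -/
def S_RTP : Prop := ∀ ε : ℝ, 0 < ε → ∃ C : ℝ, 1 ≤ C ∧ ∀ Y : ℝ, 1 ≤ Y → ∀ (z : ℕ), ∀ d ∈ DY Y,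
  ∀ (S : Finset (Fin 10)) (K : ℕ) (v : ℝ) (U : Finset ℝ) (c : ℝ → ℂ), 1 ≤ K → (K : ℝ) ≤ Real.exp (2 * Y) →
  (∀ u ∈ U, v ≤ u ∧ u ≤ v + 1) → (∀ u ∈ U, ∀ u' ∈ U, u ≠ u' → 1 / (K : ℝ) ≤ |u - u'|) → (∀ u ∈ U, ‖c u‖ ≤ 1) →
  ∑ k ∈ FK K, ‖RU U c k * ∏ i ∈ S, PF z (ty i) (d i) k‖ ^ 2 ≤ C * Real.exp (ε * Y) * ((U.card : ℝ) ^ 2 +
    (K * U.card + (U.card : ℝ) ^ (7 / 4 : ℝ) * (K : ℝ) ^ (3 / 4 : ℝ)) * Real.exp (-((∑ i ∈ S, (d i : ℝ)) / 20)))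

/-! ### Part M4: large values of smooth factors by reflection -/

/-- the phase `e^{-i (τ s + κ e^s)}` (equal to `Pool.Agent.Q14.KS.EP`) -/
noncomputable def ep (τ κ s : ℝ) : ℂ := Complex.exp (-((τ * s + κ * Real.exp s : ℝ) : ℂ) * Complex.I)

/-- the amplitude `(p + q (s - s₀)) w (20 (s - s₀))` -/
noncomputable def am20 (p q s₀ s : ℝ) : ℝ := (p + q * (s - s₀)) * w (20 * (s - s₀))

/-- the derivative of the amplitude (zero outside `|s - s₀| < 1/20`) -/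
noncomputable def am20' (p q s₀ s : ℝ) : ℝ :=
  if |s - s₀| < 1 / 20 then q * w (20 * (s - s₀)) - 20 * (p + q * (s - s₀)) * (if s₀ ≤ s then 1 else -1) else 0

/-- **EI** (an exponential integral). Proof. The phase is `Φ(x) = k x - 2π e^x`, `Φ' = k - 2π e^x` decreasing,
`|Φ''| = 2π e^x`. Cut `[a, b]` at `x₁ = log (k/(4π))` and `x₂ = log (k/π)`. For `x ≤ x₁` one has `Φ' ≥ k/2`, for `x ≥ x₂`
`Φ' ≤ -k`: by the first derivative test (`∫ e^{-iΦ} = [i e^{-iΦ}/Φ'] - i∫ (1/Φ')' e^{-iΦ}` and `1/Φ'` is monotone) these parts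
are at most `8/k` and `4/k`. On `[x₁, x₂]` one has `|Φ''| ≥ k/2`, so `|Φ'| ≥ k^{1/2}/2` outside the interval of length
`2 k^{-1/2}` around the zero `x₀ = log (k/(2π))` of `Φ'`; the interval contributes at most `2 k^{-1/2}`, and the two remaining
parts at most `8 k^{-1/2}` each, by the first derivative test. -/
def S_EI : Prop := ∃ C : ℝ, 1 ≤ C ∧ ∀ k a b : ℝ, 1 ≤ k → a ≤ b →
  ‖∫ s in a..b, ep k (-(2 * Real.pi)) s‖ ≤ C / k ^ (1 / 2 : ℝ)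

/-- **PSN** (Poisson's formula for a smooth factor). Proof. Let `s₀ = d/20`, `(p, q) = (1, 0)` for `t = 1`, `(d/20, 1)` for `t = 2`
(`log n = s₀ + (log n - s₀)`). As in the proof of `Pool.Agent.Q14.KS.smo` (file `Pool/Agent/Q14/KS/Smo.lean`: `fs`, `fs_cont`,
`fs_fourier`, `int_am` with `β = 20`), Poisson's formula gives
`PF z t d k = ∑_{ξ ∈ ℤ} ∫ am20 p q s₀ s · ep k (2πξ) s ds`. For `ξ = 0` and `ξ > 0`: `|k + 2πξ e^s| ≥ max (k, 2πξ e^s)`, so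
`int_am` bounds the integral by `C (|p| + |q|)/k²` (`ξ = 0`), `C (|p| + |q|)/(ξ e^{s₀})²` (`ξ > 0`). For `ξ = -j`,
`j > 2T e^{-s₀}`: for `s ≥ s₀ - 1`, `k ≤ 2T < j e^{s₀} ≤ e · j e^s`, so `|k - 2πj e^s| ≥ (2π - e) j e^s` and
`2πj e^s ≤ 2 |k - 2πj e^s|`; `int_am` with `B = (2π - e) j e^{s₀ - 1}` gives `C (|p| + |q|)/(j e^{s₀})²`. The sum of all these
terms is at most `C (1 + d)(T^{-2} + e^{-2 s₀}) ≤ C' (1 + d) e^{-d/10}` because `e^{s₀} ≤ 10 T`. The terms `ξ = -j`,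
`1 ≤ j ≤ 2T e^{-s₀}`, are kept. (The estimates show that the Fourier transform is `O(ξ^{-2})`; the finitely many kept terms are
bounded by a constant.) -/
def S_PSN : Prop := ∃ C : ℝ, 1 ≤ C ∧ ∀ (z : ℕ) (t : Fin 3) (d : ℕ) (T : ℝ) (k : ℤ), t ≠ 0 → 1 ≤ T →
  T ≤ (k : ℝ) → (k : ℝ) ≤ 2 * T → Real.exp ((d : ℝ) / 20) ≤ 10 * T →
  ‖PF z t d k - ∑ j ∈ Icc 1 ⌊2 * T * Real.exp (-((d : ℝ) / 20))⌋₊,
    ∫ s in ((d : ℝ) / 20 - 1 / 20)..((d : ℝ) / 20 + 1 / 20),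
      ((am20 (if t = 1 then 1 else (d : ℝ) / 20) (if t = 1 then 0 else 1) ((d : ℝ) / 20) s : ℝ) : ℂ) *
        ep k (-(2 * Real.pi * j)) s‖ ≤ C * (1 + d) * Real.exp (-((d : ℝ) / 10))

/-- **IBP** (integration by parts in a kept term). Proof. `ep k (-2πj) s = e^{ik log j} ep k (-2π) (s + log j)`, so the
integral is `e^{ik log j} ∫ am20 p q s₀ (r - log j) ep k (-2π) r dr`. Let `E(r) = ∫_0^r ep k (-2π) x dx`, so `E' = ep k (-2π)`.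
Integrate by parts on each half of the support of the tent: the amplitude is continuous, zero at the two ends, and
differentiable inside each half with derivative `am20'`; the boundary terms at the middle point cancel. -/
def S_IBP : Prop := ∀ (p q s₀ k : ℝ) (j : ℕ), 1 ≤ j →
  ∫ s in (s₀ - 1 / 20)..(s₀ + 1 / 20), ((am20 p q s₀ s : ℝ) : ℂ) * ep k (-(2 * Real.pi * j)) s =
    -Complex.exp (((k * Real.log j : ℝ) : ℂ) * Complex.I) *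
      ∫ r in (s₀ - 1 / 20 + Real.log j)..(s₀ + 1 / 20 + Real.log j),
        ((am20' p q s₀ (r - Real.log j) : ℝ) : ℂ) * ∫ x in (0 : ℝ)..r, ep k (-(2 * Real.pi)) x

/-- **RFL** (reflection; from EI, PSN, IBP). Proof. Let `s₀ = d/20`. As `PF z t d (-k)` is the conjugate of `PF z t d k` and
`‖DP s a (-k)‖ = ‖DP s a k‖` for real `a`, we may replace every `k` by `|k|` (the final choice of `H, s, a` below works for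
all `k ∈ L` at the same time). By PSN, IBP and EI,
`‖PF z t d k‖ ≤ C k^{-1/2} ∫_{s₀ - 1}^{log (2T) + 1} ‖∑_{1 ≤ j ≤ 2T e^{-s₀}} am20' (r - log j) j^{ik}‖ dr + C (1 + d) e^{-d/10}`
(the sum over `j` is taken inside the integral over `r`; the factor `∫_0^r ep` does not depend on `j` and is `≤ C k^{-1/2}`).
Sum over `k ∈ L`, exchange sum and integral: some `r` in the interval (of length `≤ log T + 4`) satisfies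
`∑_{k ∈ L} ‖PF z t d k‖ ≤ C T^{-1/2} (4 + log T) ∑_{k ∈ L} ‖∑_j am20' (r - log j) j^{ik}‖ + C (1 + d) e^{-d/10} |L|`
(first moment method). Here `|am20'| ≤ 50 (1 + d)`, so put `a_j = am20' (r - log j)/(50 (1 + d))`,
`s = {1 ≤ j ≤ 2T e^{-s₀} : |r - log j - s₀| < 1/20}` and `H = max (1, e^{r - s₀})`: for `j ∈ s` one has
`|log j - log H| ≤ 1/20` (if `r < s₀` then `j = 1`), and if `s` is nonempty, `e^{r - s₀} ≤ j e^{1/20} ≤ 3 T e^{-s₀}`. If `s` is empty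
take `H = 1`. -/
def S_RFL : Prop := ∃ C : ℝ, 1 ≤ C ∧ ∀ (z : ℕ) (t : Fin 3) (d : ℕ) (T : ℝ) (L : Finset ℤ), t ≠ 0 → 1 ≤ T →
  (∀ k ∈ L, T ≤ |(k : ℝ)| ∧ |(k : ℝ)| ≤ 2 * T) → Real.exp ((d : ℝ) / 20) ≤ 10 * T →
  ∃ (H : ℝ) (s : Finset ℕ) (a : ℕ → ℝ), 1 ≤ H ∧ H ≤ 1 + 3 * T * Real.exp (-((d : ℝ) / 20)) ∧
    (∀ n ∈ s, 1 ≤ n ∧ |Real.log n - Real.log H| ≤ 1) ∧ (∀ n ∈ s, |a n| ≤ 1) ∧
    ∑ k ∈ L, ‖PF z t d k‖ ≤ C * (1 + d) * (1 + Real.log T) *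
      (T ^ (-(1 / 2) : ℝ) * ∑ k ∈ L, ‖DP s (fun n => ((a n : ℝ) : ℂ)) k‖ + Real.exp (-((d : ℝ) / 10)) * L.card)

/-- **PMV** (moments of short polynomials). Proof. `DP s a k ^ m = DP s' b k` with `b_n = ∑ ∏ a_{n_i}` over the factorisations
`n = n_1 ⋯ n_m`, `n_i ∈ s`; `|b_n| ≤ τ(n)^m ≤ C H^{ε/2}`, and `b_n = 0` unless `max(1, e^{-m} H^m) ≤ n ≤ e^m H^m`
(induction with `Pool.Agent.Q211.KS.DP_mul` as in `pow_DP`). Apply `mv`: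
`∑_{|k| < K} ‖DP s' b k‖² ≤ C ∑_{n ≤ e^m H^m} H^ε (n + K) ≤ C' H^ε (H^{2m} + K H^m)`. -/
def S_PMV : Prop := ∀ (m : ℕ) (ε : ℝ), 1 ≤ m → 0 < ε → ∃ C : ℝ, 1 ≤ C ∧ ∀ (s : Finset ℕ) (a : ℕ → ℂ) (H : ℝ) (K : ℕ),
  1 ≤ H → 1 ≤ K → (∀ n ∈ s, 1 ≤ n ∧ |Real.log n - Real.log H| ≤ 1) → (∀ n ∈ s, ‖a n‖ ≤ 1) →
  ∑ k ∈ FK K, ‖DP s a k‖ ^ (2 * m) ≤ C * H ^ ε * (H ^ (2 * m) + K * H ^ m)

/-- **LVR** (large values of a smooth factor by reflection; from RFL and PMV). For `m = 2` this is the fourth moment bound.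
Proof. Let `N = e^{d/20} ≤ 10 T`, `ℓ = (1 + d)(1 + log T) ≤ C T^{ε/(8m)}`. RFL gives
`|L| V ≤ C ℓ (T^{-1/2} ∑_{k ∈ L} ‖DP s a k‖ + N^{-2} |L|)`. If the second term is at least half of the right side then
`V ≤ 2 C ℓ N^{-2}`, and `|L| ≤ 4T + 2 ≤ 6 T ≤ 6 T (2 C ℓ/(V N²))^{2m} ≤ C T^ε T N^{-m} V^{-2m}`. Otherwise, by Hölder's inequality
and PMV with `K = ⌊2T⌋ + 1`, `1 ≤ H ≤ 1 + 3T/N ≤ 13 T/N`:
`|L| V ≤ 2 C ℓ T^{-1/2} |L|^{1 - 1/(2m)} (C H^{ε/4} (H^{2m} + K H^m))^{1/(2m)}`, so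
`|L| V^{2m} ≤ C ℓ^{2m} T^{-m} T^{ε/4} ((T/N)^{2m} + T (T/N)^m) ≤ C T^ε (T^m N^{-2m} + T N^{-m})`. -/
def S_LVR : Prop := ∀ (m : ℕ) (ε : ℝ), 1 ≤ m → 0 < ε → ∃ C : ℝ, 1 ≤ C ∧ ∀ (z : ℕ) (t : Fin 3) (d : ℕ) (T V : ℝ)
  (L : Finset ℤ), t ≠ 0 → 1 ≤ T → Real.exp ((d : ℝ) / 20) ≤ 10 * T → 0 < V →
  (∀ k ∈ L, T ≤ |(k : ℝ)| ∧ |(k : ℝ)| ≤ 2 * T ∧ V ≤ ‖PF z t d k‖) →
  (L.card : ℝ) ≤ C * T ^ ε * (T * Real.exp (-(m * d / 20 : ℝ)) + T ^ m * Real.exp (-(m * d / 10 : ℝ))) / V ^ (2 * m)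

/-! ### Part NEAR -/

/-- **NEAR2**: as `S_NEAR` (proof in `Pool/Agent/Q211/KS/Near.lean`) with `0.82` in place of `0.7`: use SBV(2000), KERV(5),
LVM and MB with `5` in place of `4`. -/
def S_NEAR2 : Prop := ∀ ε₃ : ℝ, 0 < ε₃ → ∃ ε₀ : ℝ, 0 < ε₀ ∧ ε₀ ≤ 1 / 100 ∧ ∀ B : ℕ, ∃ Y₀ : ℝ, ∀ Y : ℝ, Y₀ ≤ Y →
  ∀ d ∈ DY Y, ∀ L : Finset ℤ,
  (∀ k ∈ L, Real.exp (ε₃ * Y) ≤ |(k : ℝ)| ∧ |(k : ℝ)| ≤ Real.exp (0.82 * Y)) →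
  (∀ k ∈ L, ∀ i, Real.exp (-(ε₀ * Y)) ≤ ‖PF (zY Y) (ty i) (d i) k‖) →
  ∑ k ∈ L, ‖EE (zY Y) d k‖ ≤ 1 / Y ^ B

end Pool.Agent.Q240.KT
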