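import Pool.Agent.Q240.KT.RT5

/-!
# Project KT (helper240), job RT5: the theorem
-/

set_option autoImplicit false

namespace Pool.Agent.Q240.KT

open Finset Pool.Agent.H376R2.MR Pool.Agent.Q240.KS

/-- the number of dyadic steps is at most a small power of `K` -/
lemma log_steps {δ : ℝ} (hδ : 0 < δ) {K : ℕ} (hK : 1 ≤ K) {H : ℝ} (hH : H ^ 2 ≤ K) :
    ((Nat.log 2 ⌊H ^ 2⌋₊ + 1 : ℕ) : ℝ) ≤ (1 + 2 / δ) * (K : ℝ) ^ δ := by
  have hK1 : (1 : ℝ) ≤ K := by exact_mod_cast hK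
  have hK0 : (0 : ℝ) < K := by linarith
  have h1 : ⌊H ^ 2⌋₊ ≤ K := by
    have := Nat.floor_le_floor hH
    rwa [Nat.floor_natCast] at this
  have h2 : Nat.log 2 ⌊H ^ 2⌋₊ ≤ Nat.log 2 K := Nat.log_mono_right h1
  have h3 : (2 : ℝ) ^ Nat.log 2 K ≤ K := by exact_mod_cast Nat.pow_log_le_self 2 (by omega : K ≠ 0)
  have h4 : (Nat.log 2 K : ℝ) * Real.log 2 ≤ Real.log K := by
    rw [← Real.log_pow]
    exact Real.log_le_log (by positivity) h3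
  have h5 := Real.log_two_gt_d9
  have h6 : Real.log K ≤ (K : ℝ) ^ δ / δ := Real.log_le_rpow_div hK0.le hδ
  have h7 : (1 : ℝ) ≤ (K : ℝ) ^ δ := Real.one_le_rpow hK1 hδ.le
  have h8 : (Nat.log 2 K : ℝ) ≤ 2 * Real.log K := by
    have : (0 : ℝ) ≤ Nat.log 2 K := Nat.cast_nonneg _
    nlinarith
  have h9 : ((Nat.log 2 ⌊H ^ 2⌋₊ : ℕ) : ℝ) ≤ (Nat.log 2 K : ℝ) := by exact_mod_cast h2
  push_cast
  have h10 : 2 * ((K : ℝ) ^ δ / δ) = 2 / δ * (K : ℝ) ^ δ := by ring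
  nlinarith

theorem rt5 (hRT3 : S_RT3) (hRT4 : S_RT4) : S_RT5 := by
  intro ε hε
  obtain ⟨Cd, hCd0, hCd⟩ := Pool.Agent.Helper112.divisor_bound (ε / 16) (by positivity)
  obtain ⟨J, hJ⟩ := exists_pow_lt_of_lt_one (show (0 : ℝ) < ε / 4 by positivity) (show (1 / 2 : ℝ) < 1 by norm_num)
  set T : ℝ := 2 ^ J with hT
  have hT1 : 1 ≤ T := one_le_pow₀ (by norm_num)
  set Cm : ℝ := max Cd 1 with hCm
  have hCm1 : 1 ≤ Cm := le_max_right _ _
  set Cl : ℝ := 1 + 2 / (ε / 8) with hCl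
  have hCl1 : 1 ≤ Cl := by
    rw [hCl]
    have : 0 < 2 / (ε / 8) := by positivity
    linarith
  set C : ℝ := 2 * (20 * T ^ 2 * Cm ^ 2 * Cl) * (6 * T) with hC
  have hC3 : 3 ≤ C := by
    have h1 : 1 ≤ T ^ 2 := one_le_pow₀ hT1
    have h2 : 1 ≤ Cm ^ 2 := one_le_pow₀ hCm1
    have h3 : 1 ≤ T ^ 2 * Cm ^ 2 * Cl * T :=
      one_le_mul_of_one_le_of_one_le (one_le_mul_of_one_le_of_one_le (one_le_mul_of_one_le_of_one_le h1 h2) hCl1) hT1
    rw [hC]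
    nlinarith
  refine ⟨C, by linarith, ?_⟩
  intro U v K hK hU hsep H hH
  have hK1 : (1 : ℝ) ≤ K := by exact_mod_cast hK
  have hK0 : (0 : ℝ) < K := by linarith
  have hKe : (1 : ℝ) ≤ (K : ℝ) ^ ε := Real.one_le_rpow hK1 hε.le
  rcases Nat.eq_zero_or_pos U.card with h0 | hpos
  · have h1 := hRT3 U K 1 H hK (by norm_num) hH
    rw [h0] at h1
    have h2 : (PQ U K 1 H : ℝ) ≤ 0 := by simpa using h1
    refine h2.trans ?_
    rw [h0]
    positivity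
  set n : ℝ := (U.card : ℝ) with hn
  have hn1 : 1 ≤ n := by rw [hn]; exact_mod_cast hpos
  have hnK : n ≤ 2 * K := card_sep hK hU hsep
  have hY0 : 0 ≤ (n + n ^ (7 / 4 : ℝ) * (K : ℝ) ^ (-(1 / 4) : ℝ)) * H := by positivity
  by_cases hHK : H ^ 2 ≤ K
  swap
  · push Not at hHK
    have h1 := hRT3 U K 1 H hK (by norm_num) hH
    rw [← hn] at h1
    have h2 : 1 ≤ H ^ 2 / K := by rw [le_div_iff₀ hK0]; linarith
    have h3 : (PQ U K 1 H : ℝ) ≤ 3 * (n ^ 2 * H ^ 2 / K) := by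
      have e : 2 * 1 * H ^ 2 / (K : ℝ) = 2 * (H ^ 2 / K) := by ring
      rw [e] at h1
      have h4 : n ^ 2 * (1 + 2 * (H ^ 2 / K)) ≤ n ^ 2 * (3 * (H ^ 2 / K)) :=
        mul_le_mul_of_nonneg_left (by linarith) (by positivity)
      have e2 : n ^ 2 * (3 * (H ^ 2 / K)) = 3 * (n ^ 2 * H ^ 2 / K) := by ring
      linarith
    have h4 : 0 ≤ n ^ 2 * H ^ 2 / (K : ℝ) := by positivity
    have h5 : 3 ≤ C * (K : ℝ) ^ ε := by nlinarith
    calc (PQ U K 1 H : ℝ) ≤ 3 * (n ^ 2 * H ^ 2 / K) := h3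
      _ ≤ C * (K : ℝ) ^ ε * (n ^ 2 * H ^ 2 / K) := mul_le_mul_of_nonneg_right h5 h4
      _ ≤ _ := mul_le_mul_of_nonneg_left (by linarith) (by positivity)
  -- the main case
  set D : ℝ := Cm * (K : ℝ) ^ (ε / 16) with hD
  set l : ℝ := Cl * (K : ℝ) ^ (ε / 8) with hl
  have hD1 : 1 ≤ D := one_le_mul_of_one_le_of_one_le hCm1 (Real.one_le_rpow hK1 (by positivity))
  have hl1 : 1 ≤ l := one_le_mul_of_one_le_of_one_le hCl1 (Real.one_le_rpow hK1 (by positivity))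
  set H0 : ℝ := (n * K) ^ (1 / 4 : ℝ) with hH0
  have hnK0 : 0 < n * K := by positivity
  have hH00 : 0 < H0 := Real.rpow_pos_of_pos hnK0 _
  have hH04 : H0 ^ 4 = n * K := by
    rw [hH0, ← Real.rpow_natCast, ← Real.rpow_mul hnK0.le]
    norm_num
  set A1 : ℝ := 20 * T ^ 2 * D ^ 2 * l with hA1
  have hdiv : ∀ m : ℕ, 1 ≤ m → (m : ℝ) ≤ K → (m.divisors.card : ℝ) ≤ D := by
    intro m hm hmK
    refine (hCd m hm).trans ?_
    rw [hD]
    apply mul_le_mul (le_max_left _ _) _ (by positivity) (by positivity)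
    exact Real.rpow_le_rpow (Nat.cast_nonneg _) hmK (by positivity)
  have key := rec_step (fun τ H => (PQ U K τ H : ℝ)) n K D l T H0 A1 (2 * A1 * (n + n ^ 2 / H0)) J hn1 hK1 hl1 hD1 hT hH00
    hH04 hA1 rfl (fun _ _ => Nat.cast_nonneg _) (fun τ H hτ hH => hRT3 U K τ H hK hτ hH)
    (fun τ H hτ hH hHK => hRT4 U K τ H D hK hτ hH hsep fun m hm hm2 => hdiv m hm (hm2.trans hHK))
    (fun H _ hHK => log_steps (by positivity) hK hHK) J le_rfl H hH hHK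
  rw [Nat.sub_self, pow_zero] at key
  have hX : n ^ 2 / H0 = n ^ (7 / 4 : ℝ) * (K : ℝ) ^ (-(1 / 4) : ℝ) := by
    rw [hH0, Real.mul_rpow (by linarith) hK0.le, Real.rpow_neg hK0.le, div_mul_eq_div_div, div_eq_mul_inv (n ^ 2 / _)]
    congr 1
    rw [← Real.rpow_natCast n 2, ← Real.rpow_sub (by linarith)]
    norm_num
  rw [hX] at key
  -- the factor lambda
  set δ : ℝ := (1 / 2 : ℝ) ^ J with hδ
  have hδ0 : 0 < δ := by positivity
  have hδ1 : δ ≤ 1 := pow_le_one₀ (by norm_num) (by norm_num)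
  have hlam : (3 * T * n) ^ δ ≤ 6 * T * (K : ℝ) ^ (ε / 4) := by
    calc (3 * T * n) ^ δ ≤ (6 * T * K) ^ δ := by
          apply Real.rpow_le_rpow (by positivity) _ hδ0.le
          nlinarith
      _ = (6 * T) ^ δ * (K : ℝ) ^ δ := Real.mul_rpow (by positivity) hK0.le
      _ ≤ (6 * T) ^ (1 : ℝ) * (K : ℝ) ^ (ε / 4) := by
          apply mul_le_mul _ _ (by positivity) (by positivity)
          · exact Real.rpow_le_rpow_of_exponent_le (by linarith) hδ1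
          · exact Real.rpow_le_rpow_of_exponent_le hK1 hJ.le
      _ = 6 * T * (K : ℝ) ^ (ε / 4) := by rw [Real.rpow_one]
  have hA1' : A1 = 20 * T ^ 2 * Cm ^ 2 * Cl * (K : ℝ) ^ (ε / 4) := by
    have e : (K : ℝ) ^ (ε / 4) = (K : ℝ) ^ (ε / 16) * (K : ℝ) ^ (ε / 16) * (K : ℝ) ^ (ε / 8) := by
      rw [← Real.rpow_add hK0, ← Real.rpow_add hK0]
      congr 1
      ring
    rw [hA1, hD, hl, e]
    ring
  have hfin : 2 * A1 * (3 * T * n) ^ δ ≤ C * (K : ℝ) ^ ε := by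
    calc 2 * A1 * (3 * T * n) ^ δ ≤ 2 * A1 * (6 * T * (K : ℝ) ^ (ε / 4)) :=
          mul_le_mul_of_nonneg_left hlam (by positivity)
      _ = C * ((K : ℝ) ^ (ε / 4) * (K : ℝ) ^ (ε / 4)) := by rw [hA1', hC]; ring
      _ = C * (K : ℝ) ^ (ε / 2) := by
          rw [← Real.rpow_add hK0]
          congr 2
          ring
      _ ≤ C * (K : ℝ) ^ ε := by
          apply mul_le_mul_of_nonneg_left _ (by linarith)
          exact Real.rpow_le_rpow_of_exponent_le hK1 (by linarith)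
  calc (PQ U K 1 H : ℝ) ≤ 2 * A1 * (n + n ^ (7 / 4 : ℝ) * (K : ℝ) ^ (-(1 / 4) : ℝ)) * (3 * T * n) ^ δ * H := key
    _ = 2 * A1 * (3 * T * n) ^ δ * ((n + n ^ (7 / 4 : ℝ) * (K : ℝ) ^ (-(1 / 4) : ℝ)) * H) := by ring
    _ ≤ C * (K : ℝ) ^ ε * ((n + n ^ (7 / 4 : ℝ) * (K : ℝ) ^ (-(1 / 4) : ℝ)) * H) :=
        mul_le_mul_of_nonneg_right hfin hY0
    _ ≤ _ := by
        apply mul_le_mul_of_nonneg_left _ (by positivity)
        have : 0 ≤ n ^ 2 * H ^ 2 / (K : ℝ) := by positivity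
        linarith

end Pool.Agent.Q240.KT
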