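import Pool.Agent.Q240.KT.RTf
import Pool.Agent.Q240.KT.RT5b
import Pool.Agent.Q240.KT.M4
import Pool.Agent.Q240.KT.Near2
import Pool.Agent.Q177.KT.RT1
import Pool.Agent.Q177.KT.EI
import Pool.Agent.Q38.KT.RT4
import Pool.Agent.Q162.KT.Rt2
import Pool.Agent.Q162.KT.Rt
import Pool.Agent.Q162.KT.Ibp
import Pool.Agent.Q162.KT.Lvr
import Pool.Agent.Q198.KT.Pmv
import Pool.Agent.Q198.KT.Rfl
import Pool.Agent.Q14.KS.Smo
import Pool.Agent.Q298.KS.Sb1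
import Pool.Agent.Q298.KS.Sbv
import Pool.Agent.Q298.KS.Tri
import Pool.Agent.Q298.KS.Mb
import Pool.Agent.Q222.KS.KERV
import Pool.Agent.Q209.KS.Hu
import Pool.Agent.Q211.KS.Lvm
import Pool.Agent.Q38.KT.PSN

/-!
# Project KT (helper240): the three inputs without hypotheses
-/

set_option autoImplicit false

namespace Pool.Agent.Q240.KT

open Pool.Agent.Q240.KS

theorem rt_all : Pool.Agent.Q278.KT.S_RT :=
  rtf Pool.Agent.Q177.KT.RT1.rt1 (Pool.Agent.Q162.KT.rt Pool.Agent.Q177.KT.RT1.rt1 Pool.Agent.Q162.KT.rt2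
    (rt5 Pool.Agent.Q162.KT.rt3 Pool.Agent.Q38.KT.rt4))

theorem near2_all : Pool.Agent.Q278.KT.S_NEAR2 :=
  near2 Pool.Agent.Q298.KS.sbv Pool.Agent.Q222.KS.kerv Pool.Agent.Q211.KS.lvm Pool.Agent.Q209.KS.hmg
    Pool.Agent.Q298.KS.tri Pool.Agent.Q298.KS.mb

theorem m4_of (hPSN : S_PSN) : Pool.Agent.Q278.KT.S_M4 :=
  m4 (Pool.Agent.Q162.KT.lvr (Pool.Agent.Q198.KT.rfl_of Pool.Agent.Q177.KT.EI.ei hPSN Pool.Agent.Q162.KT.ibp)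
    Pool.Agent.Q198.KT.pmv) Pool.Agent.Q211.KS.lvm (Pool.Agent.Q298.KS.sb1 Pool.Agent.Q14.KS.smo)

theorem m4_all : Pool.Agent.Q278.KT.S_M4 := m4_of Pool.Agent.Q38.KT.psn

theorem rt_own : S_RT := Pool.Agent.Q162.KT.rt Pool.Agent.Q177.KT.RT1.rt1 Pool.Agent.Q162.KT.rt2
  (rt5 Pool.Agent.Q162.KT.rt3 Pool.Agent.Q38.KT.rt4)

end Pool.Agent.Q240.KT
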