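import Pool.Agent.Q240.KT.Stm
import Pool.Agent.Q257.KS.LSD
import Pool.Agent.Helper112.Arith

/-!
# Project KT (helper240), job RT5: closing the recursion
-/

set_option autoImplicit false

namespace Pool.Agent.Q240.KT

open Finset Pool.Agent.H376R2.MR Pool.Agent.Q240.KS

/-- the abstract recursion -/
lemma rec_step (P : ℝ → ℝ → ℝ) (n K D l T H0 A1 W : ℝ) (J : ℕ) (hn : 1 ≤ n) (hK : 1 ≤ K) (hl : 1 ≤ l) (hD : 1 ≤ D)
    (hT : T = 2 ^ J) (hH0 : 0 < H0) (hH0' : H0 ^ 4 = n * K) (hA1 : A1 = 20 * T ^ 2 * D ^ 2 * l)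
    (hW : W = 2 * A1 * (n + n ^ 2 / H0)) (hP0 : ∀ τ H, 0 ≤ P τ H)
    (h3 : ∀ τ H, 0 ≤ τ → 1 ≤ H → P τ H ≤ n ^ 2 * (1 + 2 * τ * H ^ 2 / K))
    (h4 : ∀ τ H, 1 ≤ τ → 1 ≤ H → H ^ 2 ≤ K → P τ H ^ 2 ≤ n * (1 + 2 * τ) * D ^ 2 *
      ∑ i ∈ range (Nat.log 2 ⌊H ^ 2⌋₊ + 1), 2 ^ (i + 1) * P (2 * τ) (H ^ 2 / 2 ^ i))
    (hL : ∀ H : ℝ, 1 ≤ H → H ^ 2 ≤ K → ((Nat.log 2 ⌊H ^ 2⌋₊ + 1 : ℕ) : ℝ) ≤ l) :
    ∀ q : ℕ, q ≤ J → ∀ H : ℝ, 1 ≤ H → H ^ 2 ≤ K →
      P (2 ^ (J - q)) H ≤ W * (3 * T * n) ^ ((1 / 2 : ℝ) ^ q) * H := by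
  have hT1 : 1 ≤ T := by rw [hT]; exact one_le_pow₀ (by norm_num)
  have hA1' : 1 ≤ A1 := by
    rw [hA1]
    have h1 : 1 ≤ T ^ 2 := one_le_pow₀ hT1
    have h2 : 1 ≤ D ^ 2 := one_le_pow₀ hD
    have h3 : 1 ≤ T ^ 2 * D ^ 2 := one_le_mul_of_one_le_of_one_le h1 h2
    have h4 : 1 ≤ T ^ 2 * D ^ 2 * l := one_le_mul_of_one_le_of_one_le h3 hl
    nlinarith
  have hX0 : 0 ≤ n ^ 2 / H0 := by positivity
  have hWn : 2 * A1 * n ≤ W := by rw [hW]; nlinarith
  have hWX : 2 * A1 * (n ^ 2 / H0) ≤ W := by rw [hW]; nlinarith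
  have hW0 : 0 < W := by nlinarith
  have hlam1 : 1 ≤ 3 * T * n := by nlinarith
  intro q
  induction q with
  | zero =>
    intro _ H hH hHK
    rw [Nat.sub_zero, pow_zero, Real.rpow_one, ← hT]
    have h5 := h3 T H (by linarith) hH
    have h6 : 2 * T * H ^ 2 / K ≤ 2 * T := by
      rw [div_le_iff₀ (by linarith)]
      nlinarith
    have h7 : n ^ 2 * (1 + 2 * T * H ^ 2 / K) ≤ n ^ 2 * (3 * T) := by
      apply mul_le_mul_of_nonneg_left _ (by positivity)
      linarith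
    have h8 : n ≤ W := by nlinarith
    calc P T H ≤ n ^ 2 * (3 * T) := h5.trans h7
      _ = n * (3 * T * n) * 1 := by ring
      _ ≤ W * (3 * T * n) * H := by
        apply mul_le_mul _ hH (by norm_num) (by positivity)
        exact mul_le_mul_of_nonneg_right h8 (by positivity)
  | succ q ih =>
    intro hq H hH hHK
    have ih := ih (by omega)
    set τ : ℝ := 2 ^ (J - (q + 1)) with hτ
    have hτ1 : 1 ≤ τ := one_le_pow₀ (by norm_num)
    have hτ2 : 2 * τ = 2 ^ (J - q) := by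
      rw [hτ, ← pow_succ']
      congr 1
      omega
    have hτT : 2 * τ ≤ T := by
      rw [hτ2, hT]
      exact pow_le_pow_right₀ (by norm_num) (Nat.sub_le _ _)
    set lq : ℝ := (3 * T * n) ^ ((1 / 2 : ℝ) ^ q) with hlq
    set lq' : ℝ := (3 * T * n) ^ ((1 / 2 : ℝ) ^ (q + 1)) with hlq'
    have hlq1 : 1 ≤ lq := Real.one_le_rpow hlam1 (by positivity)
    have hlq1' : 1 ≤ lq' := Real.one_le_rpow hlam1 (by positivity)
    have hsq : lq' ^ 2 = lq := by
      rw [hlq', hlq, ← Real.rpow_natCast, ← Real.rpow_mul (by linarith)]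
      congr 1
      rw [pow_succ]
      push_cast
      ring
    by_cases hc : H0 ≤ H
    · -- large H
      have h5 := h3 τ H (by linarith) hH
      have h6 : 2 * τ * H ^ 2 / K ≤ 2 * τ := by
        rw [div_le_iff₀ (by linarith)]
        nlinarith
      have h7 : n ^ 2 * (1 + 2 * τ * H ^ 2 / K) ≤ n ^ 2 * (2 * T) := by
        apply mul_le_mul_of_nonneg_left _ (by positivity)
        linarith
      have h8 : n ^ 2 ≤ n ^ 2 / H0 * H := by
        rw [div_mul_eq_mul_div, le_div_iff₀ hH0]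
        exact mul_le_mul_of_nonneg_left hc (by positivity)
      have h9 : T ≤ A1 := by
        rw [hA1]
        have h1 : T ≤ T ^ 2 := by nlinarith
        have h2 : 1 ≤ D ^ 2 * l := one_le_mul_of_one_le_of_one_le (one_le_pow₀ hD) hl
        have h3 : T ^ 2 * 1 ≤ T ^ 2 * (D ^ 2 * l) := mul_le_mul_of_nonneg_left h2 (by positivity)
        nlinarith
      calc P τ H ≤ n ^ 2 * (2 * T) := h5.trans h7
        _ ≤ (n ^ 2 / H0 * H) * (2 * T) := mul_le_mul_of_nonneg_right h8 (by positivity)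
        _ = 2 * T * (n ^ 2 / H0) * 1 * H := by ring
        _ ≤ W * lq' * H := by
          apply mul_le_mul_of_nonneg_right _ (by linarith)
          apply mul_le_mul _ hlq1' (by norm_num) hW0.le
          refine le_trans ?_ hWX
          apply mul_le_mul_of_nonneg_right _ hX0
          linarith
    · -- small H
      push Not at hc
      have h5 := h4 τ H hτ1 hH hHK
      have hterm : ∀ i ∈ range (Nat.log 2 ⌊H ^ 2⌋₊ + 1), 2 ^ (i + 1) * P (2 * τ) (H ^ 2 / 2 ^ i) ≤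
          5 * T * n ^ 2 * H ^ 4 / K * (1 / 2) ^ i + 2 * W * lq * H ^ 2 := by
        intro i hi
        have hi' : i ≤ Nat.log 2 ⌊H ^ 2⌋₊ := by
          rw [Finset.mem_range] at hi
          omega
        have hH2 : 1 ≤ H ^ 2 := one_le_pow₀ hH
        have h2i : (2 : ℝ) ^ i ≤ H ^ 2 := by
          have h6 : ⌊H ^ 2⌋₊ ≠ 0 := by
            have := Nat.floor_pos.2 hH2
            omega
          have h7 : 2 ^ i ≤ ⌊H ^ 2⌋₊ := (Nat.pow_le_pow_right (by norm_num) hi').trans (Nat.pow_log_le_self 2 h6)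
          have h8 : ((2 ^ i : ℕ) : ℝ) ≤ (⌊H ^ 2⌋₊ : ℝ) := by exact_mod_cast h7
          push_cast at h8
          exact h8.trans (Nat.floor_le (by positivity))
        have h2i0 : (0 : ℝ) < 2 ^ i := by positivity
        have h1q : 1 ≤ H ^ 2 / 2 ^ i := by rw [le_div_iff₀ h2i0]; linarith
        by_cases hc2 : (H ^ 2 / 2 ^ i) ^ 2 ≤ K
        · have h6 := ih (H ^ 2 / 2 ^ i) h1q hc2
          rw [← hτ2] at h6
          have h7 : 2 ^ (i + 1) * P (2 * τ) (H ^ 2 / 2 ^ i) ≤ 2 ^ (i + 1) * (W * lq * (H ^ 2 / 2 ^ i)) :=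
            mul_le_mul_of_nonneg_left h6 (by positivity)
          have h8 : 2 ^ (i + 1) * (W * lq * (H ^ 2 / 2 ^ i)) = 2 * W * lq * H ^ 2 := by
            field_simp
            ring
          have h9 : 0 ≤ 5 * T * n ^ 2 * H ^ 4 / K * (1 / 2) ^ i := by positivity
          linarith
        · push Not at hc2
          have h6 := h3 (2 * τ) (H ^ 2 / 2 ^ i) (by linarith) h1q
          have h7 : 1 ≤ (H ^ 2 / 2 ^ i) ^ 2 / K := by
            rw [le_div_iff₀ (by linarith)]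
            linarith
          have h8 : 1 + 2 * (2 * τ) * (H ^ 2 / 2 ^ i) ^ 2 / K ≤ 5 / 2 * T * ((H ^ 2 / 2 ^ i) ^ 2 / K) := by
            have e : 2 * (2 * τ) * (H ^ 2 / 2 ^ i) ^ 2 / K = 2 * (2 * τ) * ((H ^ 2 / 2 ^ i) ^ 2 / K) := by ring
            rw [e]
            have h10 : 1 ≤ τ * ((H ^ 2 / 2 ^ i) ^ 2 / K) := one_le_mul_of_one_le_of_one_le hτ1 h7
            have h11 : 5 * τ * ((H ^ 2 / 2 ^ i) ^ 2 / K) ≤ 5 / 2 * T * ((H ^ 2 / 2 ^ i) ^ 2 / K) :=
              mul_le_mul_of_nonneg_right (by linarith) (by linarith)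
            linarith
          have h9 : 2 ^ (i + 1) * P (2 * τ) (H ^ 2 / 2 ^ i) ≤
              2 ^ (i + 1) * (n ^ 2 * (5 / 2 * T * ((H ^ 2 / 2 ^ i) ^ 2 / K))) := by
            apply mul_le_mul_of_nonneg_left _ (by positivity)
            exact h6.trans (mul_le_mul_of_nonneg_left h8 (by positivity))
          have h10 : 2 ^ (i + 1) * (n ^ 2 * (5 / 2 * T * ((H ^ 2 / 2 ^ i) ^ 2 / K))) =
              5 * T * n ^ 2 * H ^ 4 / K * (1 / 2) ^ i := by
            rw [one_div, inv_pow]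
            field_simp
            ring
          have h11 : 0 ≤ 2 * W * lq * H ^ 2 := by positivity
          linarith
      have hsum : ∑ i ∈ range (Nat.log 2 ⌊H ^ 2⌋₊ + 1), 2 ^ (i + 1) * P (2 * τ) (H ^ 2 / 2 ^ i) ≤
          10 * T * n ^ 2 * H ^ 4 / K + l * (2 * W * lq * H ^ 2) := by
        refine (Finset.sum_le_sum hterm).trans ?_
        rw [Finset.sum_add_distrib, ← Finset.mul_sum, Finset.sum_const, card_range, nsmul_eq_mul]
        have h6 : ∑ i ∈ range (Nat.log 2 ⌊H ^ 2⌋₊ + 1), (1 / 2 : ℝ) ^ i ≤ 2 := by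
          have := sum_geometric_two_le (Nat.log 2 ⌊H ^ 2⌋₊ + 1)
          exact this
        have h7 : 5 * T * n ^ 2 * H ^ 4 / K * ∑ i ∈ range (Nat.log 2 ⌊H ^ 2⌋₊ + 1), (1 / 2 : ℝ) ^ i ≤
            5 * T * n ^ 2 * H ^ 4 / K * 2 := mul_le_mul_of_nonneg_left h6 (by positivity)
        have h8 : ((Nat.log 2 ⌊H ^ 2⌋₊ + 1 : ℕ) : ℝ) * (2 * W * lq * H ^ 2) ≤ l * (2 * W * lq * H ^ 2) :=
          mul_le_mul_of_nonneg_right (hL H hH hHK) (by positivity)
        have h9 : 5 * T * n ^ 2 * H ^ 4 / K * 2 = 10 * T * n ^ 2 * H ^ 4 / K := by ring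
        linarith
      have h6 : P τ H ^ 2 ≤ n * (2 * T) * D ^ 2 * (10 * T * n ^ 2 * H ^ 4 / K + l * (2 * W * lq * H ^ 2)) := by
        refine h5.trans ?_
        apply mul_le_mul _ hsum _ (by positivity)
        · apply mul_le_mul_of_nonneg_right _ (by positivity)
          apply mul_le_mul_of_nonneg_left _ (by linarith)
          linarith
        · exact Finset.sum_nonneg fun i _ => mul_nonneg (by positivity) (hP0 _ _)
      have h7 : n ^ 3 * H ^ 2 / K ≤ (n ^ 2 / H0) ^ 2 := by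
        have e : (n ^ 2 / H0) ^ 2 = n ^ 3 * H0 ^ 2 / K := by
          rw [div_pow, div_eq_div_iff (by positivity) (by positivity)]
          have : (n ^ 2) ^ 2 * K = n ^ 3 * (n * K) := by ring
          rw [this, ← hH0']
          ring
        rw [e]
        apply div_le_div_of_nonneg_right _ (by linarith)
        apply mul_le_mul_of_nonneg_left _ (by positivity)
        exact pow_le_pow_left₀ (by linarith) hc.le 2
      have h8 : n * (2 * T) * D ^ 2 * (10 * T * n ^ 2 * H ^ 4 / K + l * (2 * W * lq * H ^ 2)) ≤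
          A1 * H ^ 2 * (n ^ 3 * H ^ 2 / K + n * W * lq) := by
        have e1 : n * (2 * T) * D ^ 2 * (10 * T * n ^ 2 * H ^ 4 / K + l * (2 * W * lq * H ^ 2)) =
            20 * T ^ 2 * D ^ 2 * H ^ 2 * (n ^ 3 * H ^ 2 / K) + 4 * T * D ^ 2 * l * H ^ 2 * (n * W * lq) := by
          field_simp
          ring
        have e2 : A1 * H ^ 2 * (n ^ 3 * H ^ 2 / K + n * W * lq) =
            20 * T ^ 2 * D ^ 2 * l * H ^ 2 * (n ^ 3 * H ^ 2 / K) + 20 * T ^ 2 * D ^ 2 * l * H ^ 2 * (n * W * lq) := by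
          rw [hA1]
          ring
        rw [e1, e2]
        apply add_le_add
        · apply mul_le_mul_of_nonneg_right _ (by positivity)
          have : 20 * T ^ 2 * D ^ 2 * H ^ 2 * 1 ≤ 20 * T ^ 2 * D ^ 2 * H ^ 2 * l :=
            mul_le_mul_of_nonneg_left hl (by positivity)
          linarith
        · apply mul_le_mul_of_nonneg_right _ (by positivity)
          have h9 : 4 * T ≤ 20 * T ^ 2 := by nlinarith
          have : 4 * T * (D ^ 2 * l * H ^ 2) ≤ 20 * T ^ 2 * (D ^ 2 * l * H ^ 2) :=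
            mul_le_mul_of_nonneg_right h9 (by positivity)
          linarith
      have h9 : A1 * (n ^ 3 * H ^ 2 / K + n * W * lq) ≤ W ^ 2 * lq := by
        have h10 : A1 * (n ^ 3 * H ^ 2 / K) ≤ W ^ 2 * lq / 4 := by
          have h11 : A1 * (n ^ 3 * H ^ 2 / K) ≤ A1 * (n ^ 2 / H0) ^ 2 := mul_le_mul_of_nonneg_left h7 (by linarith)
          have h12 : (2 * A1 * (n ^ 2 / H0)) ^ 2 ≤ W ^ 2 := pow_le_pow_left₀ (by positivity) hWX 2
          have h13 : 4 * (A1 * (n ^ 2 / H0) ^ 2) ≤ (2 * A1 * (n ^ 2 / H0)) ^ 2 := by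
            have : A1 * (4 * (n ^ 2 / H0) ^ 2) ≤ A1 ^ 2 * (4 * (n ^ 2 / H0) ^ 2) :=
              mul_le_mul_of_nonneg_right (by nlinarith) (by positivity)
            nlinarith
          have h14 : W ^ 2 * 1 ≤ W ^ 2 * lq := mul_le_mul_of_nonneg_left hlq1 (by positivity)
          linarith
        have h11 : A1 * (n * W * lq) ≤ W ^ 2 * lq / 2 := by
          have : (2 * A1 * n) * (W * lq) ≤ W * (W * lq) := mul_le_mul_of_nonneg_right hWn (by positivity)
          nlinarith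
        have h12 : 0 ≤ W ^ 2 * lq := by positivity
        rw [mul_add]
        linarith
      have h10 : P τ H ^ 2 ≤ (W * lq' * H) ^ 2 := by
        calc P τ H ^ 2 ≤ A1 * H ^ 2 * (n ^ 3 * H ^ 2 / K + n * W * lq) := h6.trans h8
          _ = A1 * (n ^ 3 * H ^ 2 / K + n * W * lq) * H ^ 2 := by ring
          _ ≤ W ^ 2 * lq * H ^ 2 := mul_le_mul_of_nonneg_right h9 (by positivity)
          _ = (W * lq' * H) ^ 2 := by rw [← hsq]; ring
      exact (pow_le_pow_iff_left₀ (hP0 _ _) (by positivity) two_ne_zero).1 h10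

/-- the number of separated points -/
lemma card_sep {U : Finset ℝ} {v : ℝ} {K : ℕ} (hK : 1 ≤ K) (hU : ∀ u ∈ U, v ≤ u ∧ u ≤ v + 1)
    (hsep : ∀ u ∈ U, ∀ u' ∈ U, u ≠ u' → 1 / (K : ℝ) ≤ |u - u'|) : (U.card : ℝ) ≤ 2 * K := by
  have hK0 : (0 : ℝ) < K := by exact_mod_cast hK
  have h := Pool.Agent.Q257.KS.sep_sum (σ := 1 / (K : ℝ)) (B := 1) (by positivity) U (fun u => u - v) (fun _ => 1) (fun _ => 1)
    (fun _ => by norm_num) (fun u hu => ⟨by linarith [(hU u hu).1], by linarith [(hU u hu).2]⟩)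
    (fun u hu u' hu' hne => by
      rw [sub_sub_sub_cancel_right]
      exact hsep u hu u' hu' hne) (fun _ _ => le_refl _)
  simp only [Finset.sum_const, nsmul_eq_mul, mul_one, card_range] at h
  have e : ⌊(1 : ℝ) / (1 / (K : ℝ))⌋₊ = K := by
    rw [one_div_one_div, Nat.floor_natCast]
  rw [e] at h
  push_cast at h
  have : (1 : ℝ) ≤ K := by exact_mod_cast hK
  linarith

end Pool.Agent.Q240.KT
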