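import Pool.Agent.Q240.KT.Stm
import Pool.Agent.Q278.KT.Stm

/-!
# Project KT (helper240): Heath-Brown's mean value in the form of helper278
-/

set_option autoImplicit false

namespace Pool.Agent.Q240.KT

open Finset Pool.Agent.H376R2.MR Pool.Agent.Q240.KS

/-- integers in a short logarithmic interval -/
lemma card_log_int {s : Finset ℕ} {M θ δ : ℝ} (hM : 1 ≤ M) (hδ : 0 ≤ δ)
    (hs : ∀ m ∈ s, 1 ≤ m ∧ Real.log m ≤ Real.log M + 1 / 2 ∧ |Real.log m - θ| ≤ δ) :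
    (s.card : ℝ) ≤ 1 + 4 * M * δ := by
  classical
  have hM0 : 0 < M := by linarith
  rcases s.eq_empty_or_nonempty with rfl | hne
  · rw [Finset.card_empty, Nat.cast_zero]
    positivity
  set a := s.min' hne with ha
  set b := s.max' hne with hb
  have hab : a ≤ b := s.min'_le_max' hne
  have ha1 := hs a (s.min'_mem hne)
  have hb1 := hs b (s.max'_mem hne)
  have ha0 : (0 : ℝ) < a := by exact_mod_cast ha1.1
  have hb0 : (0 : ℝ) < b := by exact_mod_cast hb1.1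
  have h1 : s ⊆ Icc a b := fun m hm => Finset.mem_Icc.2 ⟨s.min'_le m hm, s.le_max' m hm⟩
  have h2 := Finset.card_le_card h1
  rw [Nat.card_Icc] at h2
  have h3 : (s.card : ℝ) ≤ (b : ℝ) + 1 - a := by
    have h4 : s.card + a ≤ b + 1 := by omega
    have h5 : (s.card : ℝ) + a ≤ b + 1 := by exact_mod_cast h4
    linarith
  have h4 : Real.log b - Real.log a ≤ 2 * δ := by
    have h5 := abs_le.1 ha1.2.2
    have h6 := abs_le.1 hb1.2.2
    linarith
  have h5 : (b : ℝ) - a ≤ b * (2 * δ) := by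
    have h6 : 1 - (a : ℝ) / b ≤ Real.log b - Real.log a := by
      have h7 := Real.add_one_le_exp (-(Real.log b - Real.log a))
      have h8 : Real.exp (-(Real.log b - Real.log a)) = (a : ℝ) / b := by
        rw [neg_sub, Real.exp_sub, Real.exp_log ha0, Real.exp_log hb0]
      linarith
    have h7 : (b : ℝ) * (1 - (a : ℝ) / b) = b - a := by
      field_simp
    rw [← h7]
    exact mul_le_mul_of_nonneg_left (h6.trans h4) hb0.le
  have h6 : (b : ℝ) ≤ 2 * M := by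
    have h7 : (b : ℝ) = Real.exp (Real.log b) := (Real.exp_log hb0).symm
    have h8 : Real.exp (Real.log b) ≤ Real.exp (Real.log M + 1 / 2) := Real.exp_le_exp.2 hb1.2.1
    rw [Real.exp_add, Real.exp_log hM0] at h8
    have h9 : Real.exp (1 / 2) ≤ 2 := by
      have h10 : Real.exp (1 / 2) ^ 2 ≤ 2 ^ 2 := by
        rw [← Real.exp_nat_mul]
        have : Real.exp (((2 : ℕ) : ℝ) * (1 / 2)) = Real.exp 1 := by
          congr 1
          norm_num
        rw [this]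
        linarith [Real.exp_one_lt_d9]
      exact (pow_le_pow_iff_left₀ (Real.exp_pos _).le (by norm_num) two_ne_zero).1 h10
    calc (b : ℝ) = Real.exp (Real.log b) := h7
      _ ≤ M * Real.exp (1 / 2) := h8
      _ ≤ M * 2 := mul_le_mul_of_nonneg_left h9 hM0.le
      _ = 2 * M := by ring
  have h7 : (b : ℝ) * (2 * δ) ≤ 2 * M * (2 * δ) := mul_le_mul_of_nonneg_right h6 (by linarith)
  linarith

/-- the trivial bound for the counting function -/
lemma nq_triv {U : Finset ℝ} {s : Finset ℕ} {K : ℕ} {M : ℝ} (hK : 1 ≤ K) (hM : 1 ≤ M) (hKM : (K : ℝ) ≤ M)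
    (hs : ∀ m ∈ s, 1 ≤ m ∧ |Real.log m - Real.log M| ≤ 1 / 2) :
    (NQ U s K : ℝ) ≤ 25 * (U.card : ℝ) ^ 2 * M ^ 2 / K := by
  classical
  have hK0 : (0 : ℝ) < K := by exact_mod_cast hK
  have hM0 : 0 < M := by linarith
  -- the number of elements of `s`
  have hcs : (s.card : ℝ) ≤ 5 * M := by
    have h1 := card_log_int (s := s) (M := M) (θ := Real.log M) (δ := 1 / 2) hM (by norm_num) (fun m hm => by
      obtain ⟨h1, h2⟩ := hs m hm
      exact ⟨h1, by linarith [(abs_le.1 h2).2], h2⟩)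
    linarith
  have hsub : (((U ×ˢ U) ×ˢ (s ×ˢ s)).filter (fun p : (ℝ × ℝ) × ℕ × ℕ =>
      |p.1.1 - p.1.2 - (Real.log p.2.1 - Real.log p.2.2)| ≤ 1 / (K : ℝ))) ⊆
      (((U ×ˢ U) ×ˢ s).sigma fun q : (ℝ × ℝ) × ℕ => s.filter (fun m' : ℕ =>
        |Real.log m' - (Real.log q.2 - (q.1.1 - q.1.2))| ≤ 1 / (K : ℝ))).image
        (fun x : (_ : (ℝ × ℝ) × ℕ) × ℕ => (x.1.1, x.1.2, x.2)) := by
    intro p hp
    rw [Finset.mem_filter, Finset.mem_product, Finset.mem_product, Finset.mem_product] at hp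
    rw [Finset.mem_image]
    refine ⟨⟨(p.1, p.2.1), p.2.2⟩, ?_, rfl⟩
    rw [Finset.mem_sigma, Finset.mem_product, Finset.mem_product, Finset.mem_filter]
    refine ⟨⟨hp.1.1, hp.1.2.1⟩, hp.1.2.2, ?_⟩
    have h1 := hp.2
    simp only
    convert h1 using 2
    ring
  have h1 : NQ U s K ≤ ∑ q ∈ (U ×ˢ U) ×ˢ s, (s.filter (fun m' : ℕ =>
        |Real.log m' - (Real.log q.2 - (q.1.1 - q.1.2))| ≤ 1 / (K : ℝ))).card := by
    unfold NQ
    refine (Finset.card_le_card hsub).trans ?_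
    refine Finset.card_image_le.trans ?_
    rw [Finset.card_sigma]
  have h2 : ∀ q ∈ (U ×ˢ U) ×ˢ s, ((s.filter (fun m' : ℕ =>
        |Real.log m' - (Real.log q.2 - (q.1.1 - q.1.2))| ≤ 1 / (K : ℝ))).card : ℝ) ≤ 5 * M / K := by
    intro q _
    have h3 := card_log_int (s := s.filter (fun m' : ℕ =>
        |Real.log m' - (Real.log q.2 - (q.1.1 - q.1.2))| ≤ 1 / (K : ℝ))) (M := M)
        (θ := Real.log q.2 - (q.1.1 - q.1.2)) (δ := 1 / K) hM (by positivity) (fun m hm => by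
      rw [Finset.mem_filter] at hm
      obtain ⟨h1, h2⟩ := hs m hm.1
      exact ⟨h1, by linarith [(abs_le.1 h2).2], hm.2⟩)
    have h4 : 1 ≤ M / K := by rw [le_div_iff₀ hK0]; linarith
    have e : 4 * M * (1 / (K : ℝ)) = 4 * (M / K) := by ring
    have e2 : 5 * M / (K : ℝ) = 5 * (M / K) := by ring
    rw [e] at h3
    rw [e2]
    linarith
  have h3 : (NQ U s K : ℝ) ≤ ∑ q ∈ (U ×ˢ U) ×ˢ s, 5 * M / (K : ℝ) := by
    have h4 : (NQ U s K : ℝ) ≤ ((∑ q ∈ (U ×ˢ U) ×ˢ s, (s.filter (fun m' : ℕ =>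
        |Real.log m' - (Real.log q.2 - (q.1.1 - q.1.2))| ≤ 1 / (K : ℝ))).card : ℕ) : ℝ) := by exact_mod_cast h1
    rw [Nat.cast_sum] at h4
    exact h4.trans (Finset.sum_le_sum h2)
  rw [Finset.sum_const, nsmul_eq_mul, Finset.card_product, Finset.card_product] at h3
  push_cast at h3
  calc (NQ U s K : ℝ) ≤ (U.card : ℝ) * U.card * s.card * (5 * M / K) := h3
    _ ≤ (U.card : ℝ) * U.card * (5 * M) * (5 * M / K) := by
        apply mul_le_mul_of_nonneg_right _ (by positivity)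
        exact mul_le_mul_of_nonneg_left hcs (by positivity)
    _ = 25 * (U.card : ℝ) ^ 2 * M ^ 2 / K := by ring

theorem rtf (h1 : S_RT1) (hRT : S_RT) : Pool.Agent.Q278.KT.S_RT := by
  intro ε hε
  obtain ⟨C₁, hC₁, hA⟩ := h1
  obtain ⟨C₂, hC₂, hB⟩ := hRT (ε / 2) (by positivity)
  set Cl : ℝ := 1 + 2 / ε with hCl
  have hCl1 : 1 ≤ Cl := by
    rw [hCl]
    have : 0 < 2 / ε := by positivity
    linarith
  set C3 : ℝ := (3 : ℝ) ^ ε with hC3
  have hC31 : 1 ≤ C3 := Real.one_le_rpow (by norm_num) hε.le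
  refine ⟨25 * C₁ + 3 * (C₂ * Cl * C3), ?_, ?_⟩
  · have : 0 ≤ 3 * (C₂ * Cl * C3) := by positivity
    linarith
  intro K v M A U c s b hK hM hA0 hU hsep hc hs
  have hK1 : (1 : ℝ) ≤ K := by exact_mod_cast hK
  have hK0 : (0 : ℝ) < K := by linarith
  have hM0 : 0 < M := by linarith
  set n : ℝ := (U.card : ℝ) with hn
  have hn0 : 0 ≤ n := Nat.cast_nonneg _
  have hKe : 1 ≤ (K : ℝ) ^ ε := Real.one_le_rpow hK1 hε.le
  have h3K : ((3 * K : ℕ) : ℝ) = 3 * (K : ℝ) := by push_cast; ring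
  have hsep' : ∀ u ∈ U, ∀ u' ∈ U, u ≠ u' → 1 / ((3 * K : ℕ) : ℝ) ≤ |u - u'| := by
    rw [h3K]
    exact hsep
  have hLHS : ∑ k ∈ FK K, ‖(∑ u ∈ U, c u * Complex.exp (((k : ℝ) * u : ℝ) * Complex.I)) * DP s b k‖ ^ 2 ≤
      ∑ k ∈ FK (3 * K), ‖RU U c k * DP s b k‖ ^ 2 := by
    refine Finset.sum_le_sum_of_subset_of_nonneg ?_ fun _ _ _ => by positivity
    intro k hk
    unfold FK at hk ⊢
    rw [Finset.mem_Ioo] at hk ⊢
    push_cast
    omega
  refine hLHS.trans ?_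
  set R1 : ℝ := K * n / M with hR1
  set R2 : ℝ := n ^ (7 / 4 : ℝ) * (K : ℝ) ^ (3 / 4 : ℝ) / M with hR2
  have hR10 : 0 ≤ R1 := by positivity
  have hR20 : 0 ≤ R2 := by positivity
  by_cases hcase : ((3 * K : ℕ) : ℝ) ≤ M
  · have h2 := hA (3 * K) v U c s b A M (by omega) hU hc hM hA0 hs
    have h3 := nq_triv (U := U) (s := s) (K := 3 * K) (M := M) (by omega) hM hcase (fun m hm => ⟨(hs m hm).1, (hs m hm).2.1⟩)
    have h4 : C₁ * A ^ 2 * ((3 * K : ℕ) : ℝ) / M ^ 2 * NQ U s (3 * K) ≤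
        C₁ * A ^ 2 * ((3 * K : ℕ) : ℝ) / M ^ 2 * (25 * n ^ 2 * M ^ 2 / ((3 * K : ℕ) : ℝ)) :=
      mul_le_mul_of_nonneg_left h3 (by positivity)
    have h5 : C₁ * A ^ 2 * ((3 * K : ℕ) : ℝ) / M ^ 2 * (25 * n ^ 2 * M ^ 2 / ((3 * K : ℕ) : ℝ)) =
        25 * C₁ * 1 * A ^ 2 * n ^ 2 := by
      rw [h3K]
      field_simp
    calc ∑ k ∈ FK (3 * K), ‖RU U c k * DP s b k‖ ^ 2 ≤ 25 * C₁ * 1 * A ^ 2 * n ^ 2 := by linarith
      _ ≤ (25 * C₁ + 3 * (C₂ * Cl * C3)) * (K : ℝ) ^ ε * A ^ 2 * (n ^ 2 + R1 + R2) := by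
          apply mul_le_mul _ (by linarith) (by positivity) (by positivity)
          apply mul_le_mul_of_nonneg_right _ (by positivity)
          apply mul_le_mul _ hKe (by norm_num) (by positivity)
          have : 0 ≤ 3 * (C₂ * Cl * C3) := by positivity
          linarith
  · push Not at hcase
    have h2 := hB (3 * K) v U c s b A M (by omega) hU hsep' hc hM hA0 hs
    rw [h3K] at h2 hcase
    have h3K1 : (1 : ℝ) ≤ 3 * K := by linarith
    have hlog : 1 + Real.log M ≤ Cl * (3 * (K : ℝ)) ^ (ε / 2) := by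
      have h3 : Real.log M ≤ Real.log (3 * K) := Real.log_le_log hM0 hcase.le
      have h4 : Real.log (3 * K) ≤ (3 * (K : ℝ)) ^ (ε / 2) / (ε / 2) := Real.log_le_rpow_div (by positivity) (by positivity)
      have h5 : 1 ≤ (3 * (K : ℝ)) ^ (ε / 2) := Real.one_le_rpow h3K1 (by positivity)
      have e : (3 * (K : ℝ)) ^ (ε / 2) / (ε / 2) = 2 / ε * (3 * (K : ℝ)) ^ (ε / 2) := by
        field_simp
      rw [hCl]
      linarith
    have hpow : (3 * (K : ℝ)) ^ (ε / 2) * (3 * (K : ℝ)) ^ (ε / 2) = C3 * (K : ℝ) ^ ε := by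
      rw [← Real.rpow_add (by positivity), hC3, ← Real.mul_rpow (by norm_num) hK0.le]
      congr 1
      ring
    have h34 : (3 * (K : ℝ)) ^ (3 / 4 : ℝ) ≤ 3 * (K : ℝ) ^ (3 / 4 : ℝ) := by
      rw [Real.mul_rpow (by norm_num) hK0.le]
      apply mul_le_mul_of_nonneg_right _ (by positivity)
      calc (3 : ℝ) ^ (3 / 4 : ℝ) ≤ 3 ^ (1 : ℝ) := Real.rpow_le_rpow_of_exponent_le (by norm_num) (by norm_num)
        _ = 3 := Real.rpow_one _
    have hbr : n ^ 2 + (3 * K * n + n ^ (7 / 4 : ℝ) * (3 * (K : ℝ)) ^ (3 / 4 : ℝ)) / M ≤ 3 * (n ^ 2 + R1 + R2) := by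
      have h3 : n ^ (7 / 4 : ℝ) * (3 * (K : ℝ)) ^ (3 / 4 : ℝ) ≤ 3 * (n ^ (7 / 4 : ℝ) * (K : ℝ) ^ (3 / 4 : ℝ)) := by
        have : n ^ (7 / 4 : ℝ) * (3 * (K : ℝ)) ^ (3 / 4 : ℝ) ≤ n ^ (7 / 4 : ℝ) * (3 * (K : ℝ) ^ (3 / 4 : ℝ)) :=
          mul_le_mul_of_nonneg_left h34 (by positivity)
        linarith
      have h4 : (3 * K * n + n ^ (7 / 4 : ℝ) * (3 * (K : ℝ)) ^ (3 / 4 : ℝ)) / M ≤
          (3 * K * n + 3 * (n ^ (7 / 4 : ℝ) * (K : ℝ) ^ (3 / 4 : ℝ))) / M :=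
        div_le_div_of_nonneg_right (by linarith) hM0.le
      have e : (3 * K * n + 3 * (n ^ (7 / 4 : ℝ) * (K : ℝ) ^ (3 / 4 : ℝ))) / M = 3 * R1 + 3 * R2 := by
        rw [hR1, hR2]
        ring
      have h5 : 0 ≤ n ^ 2 := by positivity
      linarith
    have hbr0 : 0 ≤ n ^ 2 + (3 * K * n + n ^ (7 / 4 : ℝ) * (3 * (K : ℝ)) ^ (3 / 4 : ℝ)) / M := by positivity
    calc ∑ k ∈ FK (3 * K), ‖RU U c k * DP s b k‖ ^ 2
        ≤ C₂ * A ^ 2 * (1 + Real.log M) * (3 * (K : ℝ)) ^ (ε / 2) *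
          (n ^ 2 + (3 * K * n + n ^ (7 / 4 : ℝ) * (3 * (K : ℝ)) ^ (3 / 4 : ℝ)) / M) := h2
      _ ≤ C₂ * A ^ 2 * (Cl * (3 * (K : ℝ)) ^ (ε / 2)) * (3 * (K : ℝ)) ^ (ε / 2) * (3 * (n ^ 2 + R1 + R2)) := by
          apply mul_le_mul _ hbr hbr0 (by positivity)
          apply mul_le_mul_of_nonneg_right _ (by positivity)
          exact mul_le_mul_of_nonneg_left hlog (by positivity)
      _ = 3 * (C₂ * Cl) * A ^ 2 * ((3 * (K : ℝ)) ^ (ε / 2) * (3 * (K : ℝ)) ^ (ε / 2)) * (n ^ 2 + R1 + R2) := by ring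
      _ = 3 * (C₂ * Cl * C3) * (K : ℝ) ^ ε * A ^ 2 * (n ^ 2 + R1 + R2) := by rw [hpow]; ring
      _ ≤ (25 * C₁ + 3 * (C₂ * Cl * C3)) * (K : ℝ) ^ ε * A ^ 2 * (n ^ 2 + R1 + R2) := by
          apply mul_le_mul_of_nonneg_right _ (by positivity)
          apply mul_le_mul_of_nonneg_right _ (by positivity)
          apply mul_le_mul_of_nonneg_right _ (by positivity)
          linarith

end Pool.Agent.Q240.KT
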